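import Mathlib

/-!
# Retractions onto good subsets: the number of steps is unbounded (MP_be1d92_co)

For every `N` there is a chain-complete ordered set `P` without infinite antichains with
`γ(P) = N + 1`.  The ordered set is `(ω + 1) × T`, where `T` is the linear sum of `2N + 1`
two-element antichains.
-/

namespace Pool.Agent.Results.MP_be1d92_co.UnboundedLength

/-- `C` is a maximal chain of the subset `S` (with the induced order). -/
def IsMaxChainOf {α : Type} [PartialOrder α] (S C : Set α) : Prop :=
  C ⊆ S ∧ IsChain (· ≤ ·) C ∧ ∀ D : Set α, D ⊆ S → IsChain (· ≤ ·) D → C ⊆ D → D = C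

/-- In the ordered set `S`, the point `p` is funneled through `q`: every maximal chain of `S`
containing `p` also contains `q`. -/
def Funneled {α : Type} [PartialOrder α] (S : Set α) (p q : α) : Prop :=
  ∀ C : Set α, IsMaxChainOf S C → p ∈ C → q ∈ C

/-- `Q` is a good subset of the ordered set `S`: for every `p ∈ S` there is exactly one `q ∈ Q`
such that `p` is funneled through `q`. -/
def IsGood {α : Type} [PartialOrder α] (S Q : Set α) : Prop :=
  Q ⊆ S ∧ ∀ p ∈ S, ∃! q, q ∈ Q ∧ Funneled S p q

/-- The weaker notion of a good subset: every `p ∈ S` is funneled through some `q ∈ Q`, and no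
element of `Q` is funneled through another element of `Q`. -/
def IsWeaklyGood {α : Type} [PartialOrder α] (S Q : Set α) : Prop :=
  Q ⊆ S ∧ (∀ p ∈ S, ∃ q ∈ Q, Funneled S p q) ∧ ∀ q ∈ Q, ∀ q' ∈ Q, Funneled S q q' → q = q'

/-- `n` successive steps, each allowed by `R`, lead from the whole ordered set to a finite one. -/
def ReachesFinite {α : Type} (R : Set α → Set α → Prop) (n : ℕ) : Prop :=
  ∃ P : ℕ → Set α, P 0 = Set.univ ∧ (∀ k < n, R (P k) (P (k + 1))) ∧ (P n).Finite

/-- `γ(P)`: the least number of successive retractions onto good subsets leading to a finite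
ordered set (`⊤` if there is no such number). -/
noncomputable def gamma (α : Type) [PartialOrder α] : ℕ∞ :=
  sInf {x : ℕ∞ | ∃ n : ℕ, x = n ∧ ReachesFinite (IsGood (α := α)) n}

/-- the variant of `γ(P)` for the weaker notion of a good subset -/
noncomputable def gammaWeak (α : Type) [PartialOrder α] : ℕ∞ :=
  sInf {x : ℕ∞ | ∃ n : ℕ, x = n ∧ ReachesFinite (IsWeaklyGood (α := α)) n}

/-- every nonempty chain has a supremum and an infimum -/
def ChainComplete (α : Type) [PartialOrder α] : Prop :=
  ∀ C : Set α, IsChain (· ≤ ·) C → C.Nonempty → (∃ s, IsLUB C s) ∧ ∃ i, IsGLB C i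

/-- every antichain is finite -/
def NoInfiniteAntichain (α : Type) [PartialOrder α] : Prop :=
  ∀ A : Set α, IsAntichain (· ≤ ·) A → A.Finite

/-! ### Funneling and comparability -/

section general

variable {α : Type} [PartialOrder α]

/-- comparability -/
def Comp (x y : α) : Prop := x ≤ y ∨ y ≤ x

theorem Comp.symm {x y : α} (h : Comp x y) : Comp y x := Or.symm h

theorem Comp.refl (x : α) : Comp x x := Or.inl le_rfl

theorem comp_of_chain {C : Set α} (hC : IsChain (· ≤ ·) C) {x y : α} (hx : x ∈ C) (hy : y ∈ C) :
    Comp x y := by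
  by_cases h : x = y
  · rw [h]
    exact Comp.refl y
  · exact hC hx hy h

theorem pair_chain {x y : α} (h : Comp x y) : IsChain (· ≤ ·) ({x, y} : Set α) := by
  intro u hu v hv _
  rcases hu with rfl | hu <;> rcases hv with rfl | hv
  · exact Comp.refl _
  · rw [Set.mem_singleton_iff] at hv
    subst hv
    exact h
  · rw [Set.mem_singleton_iff] at hu
    subst hu
    exact h.symm
  · rw [Set.mem_singleton_iff] at hu hv
    subst hu
    subst hv
    exact Comp.refl _

theorem exists_maxChainOf {S C : Set α} (hCS : C ⊆ S) (hC : IsChain (· ≤ ·) C) :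
    ∃ D, IsMaxChainOf S D ∧ C ⊆ D := by
  obtain ⟨M, hCM, hM⟩ := zorn_subset_nonempty {D : Set α | D ⊆ S ∧ IsChain (· ≤ ·) D} (by
    intro c hc hchain hne
    refine ⟨⋃₀ c, ⟨?_, ?_⟩, fun s hs => Set.subset_sUnion_of_mem hs⟩
    · exact Set.sUnion_subset fun s hs => (hc hs).1
    · intro x hx y hy hxy
      obtain ⟨s, hs, hxs⟩ := hx
      obtain ⟨t, ht, hyt⟩ := hy
      rcases hchain.total hs ht with h | h
      · exact (hc ht).2 (h hxs) hyt hxy
      · exact (hc hs).2 hxs (h hyt) hxy) C ⟨hCS, hC⟩
  refine ⟨M, ⟨hM.prop.1, hM.prop.2, fun D hDS hD hMD => ?_⟩, hCM⟩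
  exact Set.Subset.antisymm (hM.le_of_ge ⟨hDS, hD⟩ hMD) hMD

theorem funneled_iff {S : Set α} {p q : α} (hp : p ∈ S) :
    Funneled S p q ↔ q ∈ S ∧ ∀ x ∈ S, Comp x p → Comp x q := by
  constructor
  · intro h
    constructor
    · obtain ⟨D, hD, hsub⟩ := exists_maxChainOf (S := S) (C := {p, p})
        (by
          intro y hy
          rcases hy with rfl | hy
          · exact hp
          · rw [Set.mem_singleton_iff] at hy
            rw [hy]
            exact hp) (pair_chain (Comp.refl p))
      exact hD.1 (h D hD (hsub (by simp)))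
    · intro x hx hxp
      obtain ⟨D, hD, hsub⟩ := exists_maxChainOf (S := S) (C := {x, p})
        (by
          intro y hy
          rcases hy with rfl | hy
          · exact hx
          · rw [Set.mem_singleton_iff] at hy
            rw [hy]
            exact hp) (pair_chain hxp)
      exact comp_of_chain hD.2.1 (hsub (by simp)) (h D hD (hsub (by simp)))
  · rintro ⟨hq, h⟩ C hC hpC
    have h1 : IsChain (· ≤ ·) (insert q C) := by
      refine hC.2.1.insert fun y hy _ => ?_
      exact (h y (hC.1 hy) (comp_of_chain hC.2.1 hy hpC)).symm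
    have h2 := hC.2.2 (insert q C) (Set.insert_subset hq hC.1) h1 (Set.subset_insert q C)
    rw [← h2]
    exact Set.mem_insert q C

theorem IsGood.weakly {S Q : Set α} (h : IsGood S Q) : IsWeaklyGood S Q := by
  refine ⟨h.1, fun p hp => ?_, fun q hq q' hq' hqq' => ?_⟩
  · obtain ⟨q, hq, -⟩ := h.2 p hp
    exact ⟨q, hq.1, hq.2⟩
  · obtain ⟨r, -, hr⟩ := h.2 q (h.1 hq)
    have h1 := hr q ⟨hq, fun C _ hC => hC⟩
    have h2 := hr q' ⟨hq', hqq'⟩
    rw [h1, h2]

end general

/-! ### The ordered sets -/

/-- the linear sum of `m + 1` two-element antichains -/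
@[ext]
structure T (m : ℕ) where
  /-- the level -/
  lv : Fin (m + 1)
  /-- the position in the level -/
  bit : Bool
  deriving DecidableEq

/-- `T m` is a finite type -/
def T.equivProd (m : ℕ) : T m ≃ Fin (m + 1) × Bool where
  toFun t := (t.lv, t.bit)
  invFun x := ⟨x.1, x.2⟩
  left_inv _ := rfl
  right_inv _ := rfl

instance (m : ℕ) : Fintype (T m) := Fintype.ofEquiv _ (T.equivProd m).symm

instance (m : ℕ) : PartialOrder (T m) where
  le x y := x = y ∨ x.lv < y.lv
  le_refl _ := Or.inl rfl
  le_trans x y z h1 h2 := by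
    rcases h1 with rfl | h1
    · exact h2
    · rcases h2 with rfl | h2
      · exact Or.inr h1
      · exact Or.inr (h1.trans h2)
  le_antisymm x y h1 h2 := by
    rcases h1 with h1 | h1
    · exact h1
    · rcases h2 with h2 | h2
      · exact h2.symm
      · exact absurd (h1.trans h2) (lt_irrefl _)

theorem T.le_def {m : ℕ} (x y : T m) : x ≤ y ↔ x = y ∨ x.lv < y.lv := Iff.rfl

/-- the ordered set `(ω + 1) × T` -/
abbrev P (m : ℕ) : Type := ℕ∞ × T m

/-- the level of a point -/
def lev {m : ℕ} (x : P m) : ℕ := x.2.lv

theorem lev_le {m : ℕ} (x : P m) : lev x ≤ m := Nat.lt_succ_iff.1 x.2.lv.isLt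

theorem le_iff {m : ℕ} (x y : P m) : x ≤ y ↔ x.1 ≤ y.1 ∧ (x.2 = y.2 ∨ lev x < lev y) := by
  rw [Prod.le_def, T.le_def]
  rfl

/-- the point with given coordinates -/
def mk {m : ℕ} (i : ℕ∞) (j : ℕ) (hj : j ≤ m) (b : Bool) : P m := (i, ⟨⟨j, by omega⟩, b⟩)

theorem lev_mk {m : ℕ} (i : ℕ∞) (j : ℕ) (hj : j ≤ m) (b : Bool) : lev (mk i j hj b) = j := rfl

theorem not_comp_sibling {m : ℕ} {x y : P m} (h1 : lev x = lev y) (h2 : x.2.bit ≠ y.2.bit) :
    ¬ Comp x y := by
  rintro (h | h)
  · rw [le_iff] at h
    rcases h.2 with h | h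
    · exact h2 (by rw [h])
    · omega
  · rw [le_iff] at h
    rcases h.2 with h | h
    · exact h2 (by rw [h])
    · omega

theorem snd_eq_of_comp {m : ℕ} {x y : P m} (h1 : lev x = lev y) (h2 : Comp x y) :
    x.2 = y.2 := by
  rcases h2 with h | h
  · rw [le_iff] at h
    rcases h.2 with h | h
    · exact h
    · omega
  · rw [le_iff] at h
    rcases h.2 with h | h
    · exact h.symm
    · omega

/-- the `k`-th set of the sequence -/
def S (m k : ℕ) : Set (P m) :=
  {x | (k ≤ lev x ∧ lev x + k ≤ m) ∨ (m < lev x + k ∧ x.1 = ⊤) ∨ (lev x < k ∧ x.1 = 0)}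

theorem mem_S {m k : ℕ} (x : P m) : x ∈ S m k ↔
    (k ≤ lev x ∧ lev x + k ≤ m) ∨ (m < lev x + k ∧ x.1 = ⊤) ∨ (lev x < k ∧ x.1 = 0) := Iff.rfl

/-- the sibling of a point -/
def sib {m : ℕ} (x : P m) : P m := (x.1, ⟨x.2.lv, !x.2.bit⟩)

theorem lev_sib {m : ℕ} (x : P m) : lev (sib x) = lev x := rfl

theorem S_anti {m k : ℕ} (hk : 2 * k + 2 ≤ m) : S m (k + 1) ⊆ S m k := by
  intro x hx
  rw [mem_S] at hx ⊢
  rcases hx with h | ⟨h, h'⟩ | ⟨h, h'⟩
  · left
    omega
  · by_cases h2 : m < lev x + k
    · exact Or.inr (Or.inl ⟨h2, h'⟩)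
    · left
      omega
  · by_cases h2 : lev x < k
    · exact Or.inr (Or.inr ⟨h2, h'⟩)
    · left
      omega

/-- the points of `S (k + 1)` are not dominated by other points, as witnessed by `S k` -/
theorem not_dominated {m k : ℕ} (hk : 2 * k + 2 ≤ m) {p q : P m} (hp : p ∈ S m (k + 1))
    (hpq : p ≠ q) (hc : Comp p q) : ∃ x ∈ S m k, Comp x p ∧ ¬ Comp x q := by
  have hlp := lev_le p
  have hlq := lev_le q
  rw [mem_S] at hp
  rcases hc with hc | hc
  · -- `p ≤ q`
    rw [le_iff] at hc
    obtain ⟨h1, h2 | h2⟩ := hc
    · have hlt : p.1 < q.1 := lt_of_le_of_ne h1 fun h => hpq (Prod.ext h h2)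
      have hlev : lev p = lev q := by
        unfold lev
        rw [h2]
      rcases hp with hp | ⟨hp, hp'⟩ | ⟨hp, hp'⟩
      · refine ⟨mk p.1 (lev p + 1) (by omega) true, ?_, ?_, ?_⟩
        · rw [mem_S, lev_mk]
          left
          omega
        · right
          rw [le_iff, lev_mk]
          exact ⟨le_rfl, Or.inr (by omega)⟩
        · rintro (h | h)
          · rw [le_iff, lev_mk] at h
            rcases h.2 with h3 | h3
            · have : lev (mk p.1 (lev p + 1) (by omega) true : P m) = lev q := by
                unfold lev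
                unfold lev at h3
                rw [h3]
              rw [lev_mk] at this
              omega
            · omega
          · rw [le_iff, lev_mk] at h
            exact absurd (lt_of_lt_of_le hlt h.1) (lt_irrefl _)
      · rw [hp'] at hlt
        exact absurd hlt not_top_lt
      · refine ⟨mk 0 (k + 1) (by omega) true, ?_, ?_, ?_⟩
        · rw [mem_S, lev_mk]
          left
          omega
        · right
          rw [le_iff, lev_mk, hp']
          exact ⟨le_rfl, Or.inr hp⟩
        · rintro (h | h)
          · rw [le_iff, lev_mk] at h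
            rcases h.2 with h3 | h3
            · have : lev (mk 0 (k + 1) (by omega) true : P m) = lev q := by
                unfold lev
                rw [h3]
              rw [lev_mk] at this
              omega
            · omega
          · rw [le_iff, lev_mk] at h
            rw [hp'] at hlt
            exact absurd (lt_of_lt_of_le hlt h.1) (lt_irrefl _)
    · -- sibling of `q`
      by_cases c1 : m < lev q + k
      · refine ⟨(⊤, ⟨q.2.lv, !q.2.bit⟩), ?_, ?_, ?_⟩
        · rw [mem_S]
          exact Or.inr (Or.inl ⟨c1, rfl⟩)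
        · right
          rw [le_iff]
          exact ⟨le_top, Or.inr h2⟩
        · exact not_comp_sibling rfl (by simp)
      · by_cases c2 : lev q < k
        · have hp0 : p.1 = 0 := by
            rcases hp with hp | ⟨hp, hp'⟩ | ⟨hp, hp'⟩
            · omega
            · omega
            · exact hp'
          refine ⟨(0, ⟨q.2.lv, !q.2.bit⟩), ?_, ?_, ?_⟩
          · rw [mem_S]
            exact Or.inr (Or.inr ⟨c2, rfl⟩)
          · right
            rw [le_iff]
            exact ⟨hp0.le, Or.inr h2⟩
          · exact not_comp_sibling rfl (by simp)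
        · refine ⟨sib q, ?_, ?_, ?_⟩
          · rw [mem_S, lev_sib]
            left
            omega
          · right
            rw [le_iff, lev_sib]
            exact ⟨h1, Or.inr h2⟩
          · exact not_comp_sibling rfl (by simp [sib])
  · -- `q ≤ p`
    rw [le_iff] at hc
    obtain ⟨h1, h2 | h2⟩ := hc
    · have hlt : q.1 < p.1 := lt_of_le_of_ne h1 fun h => hpq (Prod.ext h h2).symm
      have hlev : lev p = lev q := by
        unfold lev
        rw [h2]
      rcases hp with hp | ⟨hp, hp'⟩ | ⟨hp, hp'⟩
      · refine ⟨mk p.1 (lev p - 1) (by omega) true, ?_, ?_, ?_⟩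
        · rw [mem_S, lev_mk]
          left
          omega
        · left
          rw [le_iff, lev_mk]
          exact ⟨le_rfl, Or.inr (by omega)⟩
        · rintro (h | h)
          · rw [le_iff, lev_mk] at h
            exact absurd (lt_of_lt_of_le hlt h.1) (lt_irrefl _)
          · rw [le_iff, lev_mk] at h
            rcases h.2 with h3 | h3
            · have : lev (mk p.1 (lev p - 1) (by omega) true : P m) = lev q := by
                unfold lev
                unfold lev at h3
                rw [h3]
              rw [lev_mk] at this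
              omega
            · omega
      · refine ⟨mk ⊤ (m - k - 1) (by omega) true, ?_, ?_, ?_⟩
        · rw [mem_S, lev_mk]
          left
          omega
        · left
          rw [le_iff, lev_mk, hp']
          exact ⟨le_rfl, Or.inr (by omega)⟩
        · rintro (h | h)
          · rw [le_iff, lev_mk] at h
            rw [hp'] at hlt
            exact absurd (lt_of_lt_of_le hlt h.1) (lt_irrefl _)
          · rw [le_iff, lev_mk] at h
            rcases h.2 with h3 | h3
            · have : lev (mk ⊤ (m - k - 1) (by omega) true : P m) = lev q := by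
                unfold lev
                rw [h3]
              rw [lev_mk] at this
              omega
            · omega
      · rw [hp'] at hlt
        exact absurd hlt not_lt_zero
    · by_cases c1 : m < lev q + k
      · have hp0 : p.1 = ⊤ := by
          rcases hp with hp | ⟨hp, hp'⟩ | ⟨hp, hp'⟩
          · omega
          · exact hp'
          · omega
        refine ⟨(⊤, ⟨q.2.lv, !q.2.bit⟩), ?_, ?_, ?_⟩
        · rw [mem_S]
          exact Or.inr (Or.inl ⟨c1, rfl⟩)
        · left
          rw [le_iff]
          exact ⟨hp0.ge, Or.inr h2⟩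
        · exact not_comp_sibling rfl (by simp)
      · by_cases c2 : lev q < k
        · refine ⟨(0, ⟨q.2.lv, !q.2.bit⟩), ?_, ?_, ?_⟩
          · rw [mem_S]
            exact Or.inr (Or.inr ⟨c2, rfl⟩)
          · left
            rw [le_iff]
            exact ⟨zero_le, Or.inr h2⟩
          · exact not_comp_sibling rfl (by simp)
        · refine ⟨sib q, ?_, ?_, ?_⟩
          · rw [mem_S, lev_sib]
            left
            omega
          · left
            rw [le_iff, lev_sib]
            exact ⟨h1, Or.inr h2⟩
          · exact not_comp_sibling rfl (by simp [sib])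

theorem step_lower {m k : ℕ} (hk : 2 * k + 2 ≤ m) {Q Q' : Set (P m)} (hQ : S m k ⊆ Q)
    (hg : IsWeaklyGood Q Q') : S m (k + 1) ⊆ Q' := by
  intro p hp
  have hpQ : p ∈ Q := hQ (S_anti hk hp)
  obtain ⟨q, hq, hf⟩ := hg.2.1 p hpQ
  rw [funneled_iff hpQ] at hf
  by_cases hpq : p = q
  · rw [hpq]
    exact hq
  · obtain ⟨x, hx, h1, h2⟩ := not_dominated hk hp hpq (hf.2 p hpQ (Comp.refl p))
    exact absurd (hf.2 x (hQ hx) h1) h2

theorem S_zero (m : ℕ) : S m 0 = Set.univ := by
  ext x
  have := lev_le x
  simp [mem_S, this]

theorem S_infinite {m k : ℕ} (hk : 2 * k ≤ m) : (S m k).Infinite := by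
  have h : Function.Injective fun i : ℕ => (mk (i : ℕ∞) k (by omega) true : P m) := by
    intro i j hij
    have := congrArg Prod.fst hij
    simp only [mk] at this
    exact_mod_cast this
  refine Set.infinite_of_injective_forall_mem h fun i => ?_
  rw [mem_S, lev_mk]
  left
  omega

theorem lower_bound {N n : ℕ} (hn : n ≤ N) :
    ¬ ReachesFinite (IsWeaklyGood (α := P (2 * N))) n := by
  rintro ⟨Q, h0, h1, h2⟩
  have h : ∀ k ≤ n, S (2 * N) k ⊆ Q k := by
    intro k
    induction k with
    | zero =>
      intro _
      rw [h0]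
      exact Set.subset_univ _
    | succ k ih =>
      intro hk
      exact step_lower (by omega) (ih (by omega)) (h1 k (by omega))
  exact S_infinite (m := 2 * N) (k := n) (by omega) (h2.subset (h n le_rfl))

/-! ### The upper bound -/

/-- an element through which `p` is funneled has the same level -/
theorem lev_eq_of_funneled {m : ℕ} {A : Set (P m)} (hA : ∀ x ∈ A, sib x ∈ A) {p q : P m}
    (hp : p ∈ A) (hq : q ∈ A) (h : ∀ x ∈ A, Comp x p → Comp x q) : p.2 = q.2 := by
  have hc : Comp p q := h p hp (Comp.refl p)
  refine snd_eq_of_comp ?_ hc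
  by_contra hne
  have h1 : Comp (sib q) p := by
    rcases hc with hc | hc
    · rw [le_iff] at hc
      right
      rw [le_iff, lev_sib]
      rcases hc.2 with h3 | h3
      · exact absurd (by unfold lev; rw [h3]) hne
      · exact ⟨hc.1, Or.inr h3⟩
    · rw [le_iff] at hc
      left
      rw [le_iff, lev_sib]
      rcases hc.2 with h3 | h3
      · exact absurd (by unfold lev; rw [h3]) hne
      · exact ⟨hc.1, Or.inr h3⟩
  exact not_comp_sibling (x := sib q) (y := q) rfl (by simp [sib]) (h _ (hA q hq) h1)

theorem S_sib {m k : ℕ} : ∀ x ∈ S m k, sib x ∈ S m k := fun _ hx => hx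

theorem S_good {m k : ℕ} (hk : 2 * k + 2 ≤ m) : IsGood (S m k) (S m (k + 1)) := by
  refine ⟨S_anti hk, fun p hp => ?_⟩
  have hlp := lev_le p
  have hp0 := hp
  -- uniqueness reduces to elements with the same second coordinate
  have huniq : ∀ q ∈ S m (k + 1), Funneled (S m k) p q → p.2 = q.2 := by
    intro q hq hf
    rw [funneled_iff hp] at hf
    exact lev_eq_of_funneled S_sib hp hf.1 hf.2
  by_cases hp1 : p ∈ S m (k + 1)
  · refine ⟨p, ⟨hp1, fun C _ hC => hC⟩, ?_⟩
    rintro q ⟨hq, hf⟩
    by_contra hne
    rw [funneled_iff hp] at hf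
    obtain ⟨x, hx, h1, h2⟩ := not_dominated hk hp1 (Ne.symm hne) (hf.2 p hp (Comp.refl p))
    exact h2 (hf.2 x hx h1)
  · rw [mem_S] at hp hp1
    push Not at hp1
    by_cases c : lev p + k = m
    · -- top level
      refine ⟨(⊤, p.2), ⟨?_, ?_⟩, ?_⟩
      · rw [mem_S]
        refine Or.inr (Or.inl ⟨?_, rfl⟩)
        change m < lev p + (k + 1)
        omega
      · rw [funneled_iff hp0]
        refine ⟨?_, ?_⟩
        · rw [mem_S]
          left
          change k ≤ lev p ∧ lev p + k ≤ m
          omega
        · intro x hx hxp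
          rcases hxp with h | h
          · left
            rw [le_iff] at h ⊢
            exact ⟨le_top, h.2⟩
          · rw [le_iff] at h
            rcases h.2 with h3 | h3
            · left
              rw [le_iff]
              exact ⟨le_top, Or.inl h3.symm⟩
            · right
              rw [mem_S] at hx
              have hx1 : x.1 = ⊤ := by
                rcases hx with hx | hx | hx
                · omega
                · exact hx.2
                · omega
              rw [le_iff, hx1]
              exact ⟨le_rfl, Or.inr h3⟩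
      · rintro q ⟨hq, hf⟩
        have h2 := huniq q hq hf
        have hl : lev q = lev p := by
          unfold lev
          rw [h2]
        rw [mem_S] at hq
        have hq1 : q.1 = ⊤ := by
          rcases hq with hq | hq | hq
          · omega
          · exact hq.2
          · omega
        exact Prod.ext hq1 h2.symm
    · -- bottom level
      have hlk : lev p = k := by
        rcases hp with hp | ⟨hp, hp'⟩ | ⟨hp, hp'⟩
        · by_contra hne
          have := hp1.1 (by omega)
          omega
        · exact absurd hp' (hp1.2.1 (by omega))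
        · exact absurd hp' (hp1.2.2 (by omega))
      refine ⟨(0, p.2), ⟨?_, ?_⟩, ?_⟩
      · rw [mem_S]
        refine Or.inr (Or.inr ⟨?_, rfl⟩)
        change lev p < k + 1
        omega
      · rw [funneled_iff hp0]
        refine ⟨?_, ?_⟩
        · rw [mem_S]
          left
          change k ≤ lev p ∧ lev p + k ≤ m
          omega
        · intro x hx hxp
          rcases hxp with h | h
          · rw [le_iff] at h
            rcases h.2 with h3 | h3
            · right
              rw [le_iff]
              exact ⟨zero_le, Or.inl h3.symm⟩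
            · left
              rw [mem_S] at hx
              have hx1 : x.1 = 0 := by
                rcases hx with hx | hx | hx
                · omega
                · omega
                · exact hx.2
              rw [le_iff, hx1]
              exact ⟨le_rfl, Or.inr h3⟩
          · right
            rw [le_iff] at h ⊢
            exact ⟨zero_le, h.2⟩
      · rintro q ⟨hq, hf⟩
        have h2 := huniq q hq hf
        have hl : lev q = lev p := by
          unfold lev
          rw [h2]
        rw [mem_S] at hq
        have hq1 : q.1 = 0 := by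
          rcases hq with hq | hq | hq
          · omega
          · omega
          · exact hq.2
        exact Prod.ext hq1 h2.symm

/-- the finite set at the end of the sequence -/
def F (N : ℕ) : Set (P (2 * N)) := {x | (lev x ≤ N ∧ x.1 = 0) ∨ (N < lev x ∧ x.1 = ⊤)}

theorem F_finite (N : ℕ) : (F N).Finite := by
  have h : F N ⊆ Set.range fun t : T (2 * N) =>
      (((if (t.lv : ℕ) ≤ N then (0 : ℕ∞) else ⊤), t) : P (2 * N)) := by
    rintro x (⟨h, h'⟩ | ⟨h, h'⟩)
    · refine ⟨x.2, Prod.ext ?_ rfl⟩
      rw [h']
      exact if_pos h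
    · refine ⟨x.2, Prod.ext ?_ rfl⟩
      rw [h']
      exact if_neg (not_le.2 h)
  exact (Set.finite_range _).subset h

theorem F_good (N : ℕ) : IsGood (S (2 * N) N) (F N) := by
  have hsub : F N ⊆ S (2 * N) N := by
    rintro x (⟨h, h'⟩ | ⟨h, h'⟩)
    · rw [mem_S]
      by_cases h2 : lev x < N
      · exact Or.inr (Or.inr ⟨h2, h'⟩)
      · left
        omega
    · rw [mem_S]
      exact Or.inr (Or.inl ⟨by omega, h'⟩)
  refine ⟨hsub, fun p hp => ?_⟩
  have hp0 := hp
  rw [mem_S] at hp
  have huniq : ∀ q ∈ F N, Funneled (S (2 * N) N) p q → p.2 = q.2 := by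
    intro q hq hf
    rw [funneled_iff hp0] at hf
    exact lev_eq_of_funneled S_sib hp0 hf.1 hf.2
  by_cases c : N < lev p
  · have hp1 : p.1 = ⊤ := by
      rcases hp with hp | hp | hp
      · omega
      · exact hp.2
      · omega
    refine ⟨p, ⟨Or.inr ⟨c, hp1⟩, fun C _ hC => hC⟩, ?_⟩
    rintro q ⟨hq, hf⟩
    have h2 := huniq q hq hf
    have hl : lev q = lev p := by
      unfold lev
      rw [h2]
    have hq1 : q.1 = ⊤ := by
      rcases hq with hq | hq
      · omega
      · exact hq.2
    exact Prod.ext (hq1.trans hp1.symm) h2.symm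
  · refine ⟨(0, p.2), ⟨Or.inl ⟨not_lt.1 c, rfl⟩, ?_⟩, ?_⟩
    · rw [funneled_iff hp0]
      refine ⟨hsub (Or.inl ⟨not_lt.1 c, rfl⟩), ?_⟩
      intro x hx hxp
      rcases hxp with h | h
      · rw [le_iff] at h
        rcases h.2 with h3 | h3
        · right
          rw [le_iff]
          exact ⟨zero_le, Or.inl h3.symm⟩
        · left
          rw [mem_S] at hx
          have hx1 : x.1 = 0 := by
            rcases hx with hx | hx | hx
            · omega
            · omega
            · exact hx.2
          rw [le_iff, hx1]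
          exact ⟨le_rfl, Or.inr h3⟩
      · right
        rw [le_iff] at h ⊢
        exact ⟨zero_le, h.2⟩
    · rintro q ⟨hq, hf⟩
      have h2 := huniq q hq hf
      have hl : lev q = lev p := by
        unfold lev
        rw [h2]
      have hq1 : q.1 = 0 := by
        rcases hq with hq | hq
        · exact hq.2
        · omega
      exact Prod.ext hq1 h2.symm

theorem upper_bound (N : ℕ) : ReachesFinite (IsGood (α := P (2 * N))) (N + 1) := by
  refine ⟨fun k => if k ≤ N then S (2 * N) k else F N, ?_, ?_, ?_⟩
  · simp [S_zero]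
  · intro k hk
    by_cases c : k + 1 ≤ N
    · simp only [c, if_true, show k ≤ N by omega]
      exact S_good (by omega)
    · have hkN : k = N := by omega
      subst hkN
      simp only [le_refl, if_true, show ¬ (k + 1 ≤ k) by omega, if_false]
      exact F_good k
  · simp only [show ¬ (N + 1 ≤ N) by omega, if_false]
    exact F_finite N

/-! ### Chain completeness and antichains -/

theorem chainComplete (m : ℕ) : ChainComplete (P m) := by
  intro C hC hne
  have hfin : (Prod.snd '' C).Finite := Set.toFinite _
  have hne' : (Prod.snd '' C).Nonempty := hne.image _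
  have hch : ∀ s ∈ Prod.snd '' C, ∀ t ∈ Prod.snd '' C, s ≤ t ∨ t ≤ s := by
    rintro _ ⟨x, hx, rfl⟩ _ ⟨y, hy, rfl⟩
    rcases comp_of_chain hC hx hy with h | h
    · exact Or.inl h.2
    · exact Or.inr h.2
  constructor
  · obtain ⟨M, hM⟩ := hfin.exists_maximal hne'
    refine ⟨(sSup (Prod.fst '' C), M), isLUB_prod.2 ⟨isLUB_sSup _, ?_⟩⟩
    refine IsGreatest.isLUB ⟨hM.prop, fun t ht => ?_⟩
    rcases hch t ht M hM.prop with h | h
    · exact h
    · exact hM.le_of_ge ht h
  · obtain ⟨M, hM⟩ := hfin.exists_minimal hne'
    refine ⟨(sInf (Prod.fst '' C), M), isGLB_prod.2 ⟨isGLB_sInf _, ?_⟩⟩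
    refine IsLeast.isGLB ⟨hM.prop, fun t ht => ?_⟩
    rcases hch t ht M hM.prop with h | h
    · exact hM.le_of_le ht h
    · exact h

theorem noInfiniteAntichain (m : ℕ) : NoInfiniteAntichain (P m) := by
  intro A hA
  have h1 : (Set.univ : Set ℕ∞).IsPWO := (Set.isWF_univ_iff.2 inferInstance).isPWO
  have h2 : (Set.univ : Set (T m)).IsPWO := Set.finite_univ.isPWO
  have h3 := h1.prod h2
  rw [Set.univ_prod_univ] at h3
  exact hA.finite_of_partiallyWellOrderedOn (h3.mono (Set.subset_univ A))

/-- **Answer to Q1 of MP_be1d92_co.**  For every `N` there is a chain-complete ordered set without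
infinite antichains for which the least number of successive retractions onto good subsets leading
to a finite ordered set is exactly `N + 1`, also with the weaker notion of a good subset.  In
particular `γ` is unbounded on this class. -/
theorem result : ∀ N : ℕ, ∃ (Q : Type) (_ : PartialOrder Q),
    ChainComplete Q ∧ NoInfiniteAntichain Q ∧ gamma Q = N + 1 ∧ gammaWeak Q = N + 1 := by
  intro N
  refine ⟨P (2 * N), inferInstance, chainComplete _, noInfiniteAntichain _, ?_, ?_⟩
  · refine le_antisymm (sInf_le ⟨N + 1, by push_cast; rfl, upper_bound N⟩) (le_sInf ?_)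
    rintro x ⟨n, rfl, hn⟩
    by_contra hlt
    have hn' : n ≤ N := by
      rw [not_le] at hlt
      have : n < N + 1 := by exact_mod_cast hlt
      omega
    obtain ⟨Q, h0, h1, h2⟩ := hn
    exact lower_bound hn' ⟨Q, h0, fun k hk => (h1 k hk).weakly, h2⟩
  · have hup : ReachesFinite (IsWeaklyGood (α := P (2 * N))) (N + 1) := by
      obtain ⟨Q, h0, h1, h2⟩ := upper_bound N
      exact ⟨Q, h0, fun k hk => (h1 k hk).weakly, h2⟩
    refine le_antisymm (sInf_le ⟨N + 1, by push_cast; rfl, hup⟩) (le_sInf ?_)
    rintro x ⟨n, rfl, hn⟩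
    by_contra hlt
    have hn' : n ≤ N := by
      rw [not_le] at hlt
      have : n < N + 1 := by exact_mod_cast hlt
      omega
    exact lower_bound hn' hn

end Pool.Agent.Results.MP_be1d92_co.UnboundedLength
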